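import Pool.Agent.Q213.SM.Geo

/-!
# MP_bde085_nt: periods along closed geodesics

The following statements are equivalent (`ω(N)` is the number of primes which divide `N`).

1. There are constants `κ`, `C` such that the coordinates `m(γ)`, `n(γ)` are at most `C N ^ κ` for
   all newforms of all levels `N` and all `γ ∈ Γ₀(N)` with entries at most `N ^ 2` (this is the
   question Q1).
2. There are constants `κ`, `C` such that `|m(γ)|` and `|n(γ)|` are at most `C N ^ κ` times the
   length of the closed geodesic of `γ`, for all newforms of all levels `N` and ALL hyperbolic
   `γ ∈ Γ₀(N)` (whatever their entries are); the length is `2 arcosh (|tr γ| / 2)`.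
3. For every `A` there are `κ`, `C` such that `|m(γ)|`, `|n(γ)|` are at most `C N ^ κ` for all
   `γ ∈ Γ₀(N)` with trace at most `N ^ A`.
4. The same with trace at most `17 * 64 ^ ω(N) * N`, which is `N ^ (1 + o(1))`: the closed geodesics
   of length at most `(2 + o(1)) log N` suffice.

No hypothesis is made: the series, the Shimura map and the lattice are those of the problem.
-/

namespace Pool.Agent.Results.MP_bde085_nt.ClosedGeodesics

open Pool.Agent.TH133.SH Pool.Agent.Q213.SM

/-- **The polynomial bound for the Shimura map on matrices with entries at most `N ^ 2` is equivalent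
to the bound by `C N ^ κ` times the length on all closed geodesics, and to the bound `C N ^ κ` on the
matrices with trace `N ^ (1 + o(1))`.** -/
theorem result : List.TFAE [EntriesAtMost 2, LengthLaw,
    ∀ A : ℕ, TraceAtMost (fun N => (N : ℤ) ^ A), TraceAtMost (fun N => (smallEntry N : ℤ))] :=
  geodesics_tfae

end Pool.Agent.Results.MP_bde085_nt.ClosedGeodesics
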