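import Pool.Agent.Q213.SM.DeepMain

/-!
# MP_bde085_nt: only the large matrices in subgroups of finite index matter

For every level `N` choose ANY subgroup `Δ N` of finite index in `SL(2, ℤ)` and ANY number `G N`.
Whatever these choices are, the following statements are equivalent.

1. There are constants `κ`, `C` such that the coordinates `m(γ)`, `n(γ)` are at most `C N ^ κ` for
   all newforms of all levels `N` and all `γ ∈ Γ₀(N)` with entries at most `N ^ 2` (this is the
   question Q1).
2. There are constants `κ`, `C` such that `|m(γ)|`, `|n(γ)|` are at most `C N ^ κ log |r|` for all
   newforms of all levels `N` and those matrices `γ` with rows `(p, q)`, `(r, s)` in `Γ₀(N)` which lie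
   in `Δ N` and have `p`, `s` prime numbers and `r ≠ 0`, `|r| ≥ G N`.
3. There are constants `κ`, `C` such that `|m(γ)|`, `|n(γ)|` are at most `C N ^ κ` times the length
   of the closed geodesic of `γ` for all newforms of all levels `N` and those hyperbolic `γ ∈ Γ₀(N)`
   which lie in `Δ N` and have trace at least `G N` in absolute value.

So Q1, a question on finitely many matrices for each level, is a question on the growth of the Shimura
map at infinity on any subgroup of finite index (for instance all `γ` congruent to `1` modulo
`M N`, with `M` any function), and there only along matrices with prime diagonal entries.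
-/

open Matrix.SpecialLinearGroup MatrixGroups

namespace Pool.Agent.Results.MP_bde085_nt.DeepSubgroups

open Pool.Agent.TH133.SH Pool.Agent.Q213.SM

/-- **The polynomial bound for the Shimura map on matrices with entries at most `N ^ 2` is equivalent
to logarithmic growth on the matrices beyond any bound, in any subgroups of finite index, with prime
diagonal entries.** -/
theorem result (Δ : ℕ → Subgroup SL(2, ℤ)) (hΔ : ∀ N, (Δ N).FiniteIndex) (G : ℕ → ℕ) :
    List.TFAE [EntriesAtMost 2, DeepEntries Δ G, DeepLength Δ G] :=
  deep_tfae Δ hΔ G

end Pool.Agent.Results.MP_bde085_nt.DeepSubgroups
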