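import Pool.Agent.Q213.SM.Prime

/-!
# MP_bde085_nt: matrices with prime entries suffice

The following statements are equivalent.

1. There are constants `κ`, `C` such that the coordinates `m(γ)`, `n(γ)` are at most `C N ^ κ` for
   all newforms of all levels `N` and all `γ ∈ Γ₀(N)` with entries at most `N ^ 2` (this is the
   question Q1).
2. There are constants `κ`, `C` such that `|m(γ)|`, `|n(γ)|` are at most `C N ^ κ log r` for all
   newforms of all levels `N` and all `γ` with rows `(p, q)`, `(N l, s)` for which `p`, `s` and `l`
   are prime numbers (`r = N l`).

So Q1 is a question on the values of `H` on matrices with three prime parameters. The proof uses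
parabolic elements of two cusps, Dirichlet's theorem and the theorem of Siegel and Walfisz (a prime
number `l` in every residue class modulo `d` with `log l = O(d)`).
-/

namespace Pool.Agent.Results.MP_bde085_nt.PrimeEntries

open Pool.Agent.TH133.SH Pool.Agent.Q213.SM

/-- **The polynomial bound for the Shimura map on matrices with entries at most `N ^ 2` is equivalent
to logarithmic growth on the matrices of `Γ₀(N)` with prime diagonal entries and lower left entry `N`
times a prime number.** -/
theorem result : EntriesAtMost 2 ↔ PrimeEntries :=
  prime_iff

end Pool.Agent.Results.MP_bde085_nt.PrimeEntries
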