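import Pool.Agent.Q245.Rw.Shim

/-!
# MP_bde085_nt: from an average case to the worst case: random products of small matrices

Call the matrices in `Γ₀(N)` with entries at most `N ^ 2` in absolute value small. Q1 asks for a bound `C N ^ κ` for
the coordinates `m(γ)`, `n(γ)` of `H(γ) = m(γ) Ω₁ + n(γ) Ω₂` for ALL newforms and ALL small matrices. Let `D ≥ 0` be
arbitrary.

1. Level by level, with the same bound: let `f` be a newform of level `N`, `n ≥ 162 N ^ (2 D + 8)` and `T` any real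
   number. If the coordinates of `H(g₁ g₂ ⋯ g_n)` are at most `T` with probability at least `N ^ (-D)`, where
   `g₁, …, g_n` are chosen independently and uniformly from the small matrices, then the coordinates of `H(γ)` are at
   most `T` for every small `γ`.
2. So Q1 is EQUIVALENT to an average case statement: for numbers of factors `n(N)` with
   `162 N ^ (2 D + 8) ≤ n(N) ≤ E N ^ E`, Q1 holds if and only if there are `κ`, `C` such that for all newforms of all
   levels `N` the coordinates of `H(g₁ g₂ ⋯ g_{n(N)})` are at most `C N ^ κ` with probability at least `N ^ (-D)`.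

No hypothesis is made: the series, the Shimura map and the lattice are those of the problem (`IsNewform`, `IsBasis`,
`CoordBound` and `EntriesAtMost` are the definitions of the starting file `SmallLowerLeftEntries`).

Proof: if a small `γ` has `|m(γ)| > T`, then among the factors there are many `γ` and `γ⁻¹`; the partial sums of the
others being fixed, the sum of independent signs times `|m(γ)|` falls in an interval of length `2 T < 2 |m(γ)|` with
small probability (the largest binomial coefficient). The average over the number of these factors is treated by a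
supersolution `2^k V^n (k + 1 + n / (2 V))^(-1/2)` of the recursion.
-/

set_option autoImplicit false

namespace Pool.Agent.Results.MP_bde085_nt.RandomProducts

open Pool.Agent.TH133.SH MatrixGroups

/-- The small matrices: the elements of `Γ₀(N)` with entries at most `N ^ 2` in absolute value. -/
def SmallMatrix (N : ℕ) : Type :=
  {g : SL(2, ℤ) // (N : ℤ) ∣ g 1 0 ∧ ∀ i j, |g i j| ≤ (N : ℤ) ^ 2}

/-- The product `g₁ g₂ ⋯ g_n`. -/
def product {N n : ℕ} (g : Fin n → SmallMatrix N) : SL(2, ℤ) := (List.ofFn fun i => (g i).1).prod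

/-- The coordinates of `H(γ)` in the basis `Ω₁`, `Ω₂` have absolute values at most `X`. -/
def Bound (a : ℕ → ℤ) (Ω₁ Ω₂ : ℂ) (γ : SL(2, ℤ)) (X : ℝ) : Prop :=
  CoordBound a Ω₁ Ω₂ (γ 0 0) (γ 0 1) (γ 1 0) (γ 1 1) X

/-- `Bound a Ω₁ Ω₂ (g₁ ⋯ g_n) X` has probability at least `N ^ (-D)`: the number of the `n`-tuples of
small matrices with this property, multiplied by `N ^ D`, is at least the number of all of them. -/
def Likely (N n D : ℕ) (a : ℕ → ℤ) (Ω₁ Ω₂ : ℂ) (X : ℝ) : Prop :=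
  (Nat.card (Fin n → SmallMatrix N) : ℝ) ≤
    (N : ℝ) ^ D * (Nat.card {g : Fin n → SmallMatrix N // Bound a Ω₁ Ω₂ (product g) X} : ℝ)

/-- The average case statement. -/
def AverageCase (D : ℕ) (n : ℕ → ℕ) : Prop :=
  ∃ κ : ℝ, 0 < κ ∧ ∃ C : ℝ, 0 < C ∧ ∀ N : ℕ, 1 ≤ N → ∀ a : ℕ → ℤ, IsNewform N a →
    ∀ Ω₁ Ω₂ : ℂ, IsBasis N a Ω₁ Ω₂ → Likely N (n N) D a Ω₁ Ω₂ (C * (N : ℝ) ^ κ)

/-- there are finitely many small matrices -/
theorem finite_small (N : ℕ) : Finite (SmallMatrix N) := (Pool.Agent.Q245.Rw.finite_card N).1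

theorem result (D : ℕ) :
    (∀ N n : ℕ, 1 ≤ N → 162 * N ^ (2 * D + 8) ≤ n → ∀ a : ℕ → ℤ, IsNewform N a →
      ∀ Ω₁ Ω₂ : ℂ, IsBasis N a Ω₁ Ω₂ → ∀ T : ℝ, Likely N n D a Ω₁ Ω₂ T →
      ∀ γ : SmallMatrix N, Bound a Ω₁ Ω₂ γ.1 T) ∧
    (∀ (n : ℕ → ℕ) (E : ℕ), (∀ N, 1 ≤ N → 162 * N ^ (2 * D + 8) ≤ n N ∧ n N ≤ E * N ^ E) →
      (EntriesAtMost 2 ↔ AverageCase D n)) := by
  have h1 : ∀ N n : ℕ, 1 ≤ N → 162 * N ^ (2 * D + 8) ≤ n → ∀ a : ℕ → ℤ, IsNewform N a →
      ∀ Ω₁ Ω₂ : ℂ, IsBasis N a Ω₁ Ω₂ → ∀ T : ℝ, Likely N n D a Ω₁ Ω₂ T →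
      ∀ γ : SmallMatrix N, Bound a Ω₁ Ω₂ γ.1 T := fun N n hN hn a ha Ω₁ Ω₂ hb T hT γ =>
    Pool.Agent.Q245.Rw.level hN ha.toIsForm hb hn hT γ.2
  refine ⟨h1, fun n E hn => ⟨?_, ?_⟩⟩
  · rintro ⟨κ, hκ, C, hC, h⟩
    have hE : 0 < E := by
      have h2 := hn 1 le_rfl
      rcases Nat.eq_zero_or_pos E with rfl | h3
      · have h4 := h2.1.trans h2.2
        simp at h4
      · exact h3
    refine ⟨κ + E, by positivity, E * C, by positivity, ?_⟩
    intro N hN a ha Ω₁ Ω₂ hb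
    have hN0 : (0 : ℝ) < N := by exact_mod_cast hN
    have hfin := finite_small N
    have hall : ∀ g : Fin (n N) → SmallMatrix N,
        Bound a Ω₁ Ω₂ (product g) (E * C * (N : ℝ) ^ (κ + E)) := by
      intro g
      have h3 := Pool.Agent.Q245.Rw.level_conv ha.toIsForm hb (T := C * (N : ℝ) ^ κ)
        (fun γ hγ hγ' => h N hN a ha Ω₁ Ω₂ hb (γ 0 0) (γ 0 1) (γ 1 0) (γ 1 1) (det_eq γ) hγ
          (hγ' 0 0) (hγ' 0 1) (hγ' 1 0) (hγ' 1 1)) g
      intro m k hmk
      have h4 := h3 m k hmk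
      have h5 : (n N : ℝ) * (C * (N : ℝ) ^ κ) ≤ E * C * (N : ℝ) ^ (κ + E) := by
        have h6 : (n N : ℝ) ≤ E * (N : ℝ) ^ E := by exact_mod_cast (hn N hN).2
        rw [Real.rpow_add hN0, Real.rpow_natCast]
        calc (n N : ℝ) * (C * (N : ℝ) ^ κ) ≤ (E * (N : ℝ) ^ E) * (C * (N : ℝ) ^ κ) :=
              mul_le_mul_of_nonneg_right h6 (by positivity)
          _ = E * C * ((N : ℝ) ^ κ * (N : ℝ) ^ E) := by ring
      exact ⟨h4.1.trans h5, h4.2.trans h5⟩
    unfold Likely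
    have h6 : Nat.card {g : Fin (n N) → SmallMatrix N //
        Bound a Ω₁ Ω₂ (product g) (E * C * (N : ℝ) ^ (κ + E))} =
        Nat.card (Fin (n N) → SmallMatrix N) :=
      Nat.card_congr (Equiv.subtypeUnivEquiv hall)
    rw [h6]
    have h7 : (1 : ℝ) ≤ (N : ℝ) ^ D := one_le_pow₀ (by exact_mod_cast hN)
    nlinarith [(Nat.cast_nonneg (Nat.card (Fin (n N) → SmallMatrix N)) : (0 : ℝ) ≤ _)]
  · rintro ⟨κ, hκ, C, hC, h⟩
    refine ⟨κ, hκ, C, hC, ?_⟩
    intro N hN a ha Ω₁ Ω₂ hb p q r s hdet hr hp hq hr' hs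
    have h2 := h1 N (n N) hN (hn N hN).1 a ha Ω₁ Ω₂ hb _ (h N hN a ha Ω₁ Ω₂ hb)
      ⟨mk p q r s hdet, hr, fun i j => by fin_cases i <;> fin_cases j <;> assumption⟩
    exact h2

end Pool.Agent.Results.MP_bde085_nt.RandomProducts
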